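import Pool.Agent.H62.EF.Defs

/-! EF5. Separated simplices contribute a multiple of `p`. -/

namespace Pool.Agent.H63.EF
open Finset Pool.Agent.H62.EF

variable {n d : ℕ}

lemma pos_actP (h : Equiv.Perm (Fin n)) (π : Equiv.Perm (Fin d × Fin n)) (c : Fin d) (i : Fin n) :
    pos (actP h π) (c, i) = pos π (c, h.symm i) := by
  simp [pos, actP]

lemma path_act (h : Equiv.Perm (Fin n)) (v : V n d) (π : Equiv.Perm (Fin d × Fin n)) (k : ℕ) :
    path (act h v) (actP h π) k = act h (path v π k) := by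
  funext i c
  simp only [path, act, pos_actP]

lemma sgn_actP (h : Equiv.Perm (Fin n)) (π : Equiv.Perm (Fin d × Fin n)) :
    sgn (actP h π) = ((Equiv.Perm.sign h : ℤˣ) : ℤ) ^ d * sgn π := by
  have h1 : (Equiv.prodCongr (Equiv.refl (Fin d)) h : Equiv.Perm (Fin d × Fin n)) =
      Equiv.prodCongrRight (fun _ => h) := by
    ext x <;> simp
  unfold sgn actP
  rw [Equiv.Perm.sign_trans, h1, Equiv.Perm.sign_prodCongrRight]
  simp

lemma ext0_zero (h : Equiv.Perm (Fin n)) : ext0 h 0 = 0 := by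
  simp [ext0]

lemma ext0_succ (h : Equiv.Perm (Fin n)) (i : Fin n) : ext0 h i.succ = (h i).succ := by
  simp [ext0]

lemma sign_ext0 (h : Equiv.Perm (Fin n)) :
    Equiv.Perm.sign (ext0 h) = Equiv.Perm.sign h := by
  simp [ext0, Equiv.Perm.decomposeFin.symm_sign]

lemma sg_ext0 (h : Equiv.Perm (Fin n)) (a : Fin (n + 1) → Fin (n + 1)) :
    sg (fun i => ext0 h (a i)) = ((Equiv.Perm.sign h : ℤˣ) : ℤ) * sg a := by
  have h1 : (Matrix.of fun i j => if ext0 h (a i) = j then (1 : ℤ) else 0) =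
      (Matrix.of fun i j => if a i = j then (1 : ℤ) else 0).submatrix id (ext0 h).symm := by
    ext i j
    simp only [Matrix.of_apply, Matrix.submatrix_apply, id]
    congr 1
    rw [Equiv.eq_symm_apply]
  unfold sg
  rw [h1, Matrix.det_permute', Equiv.Perm.sign_symm, sign_ext0]
  simp

lemma lab_act (g : V n d → Fin d → Fin n) (h : Equiv.Perm (Fin n)) (w : V n d) (c : Fin d)
    (hg : g (act h w) c = h (g w c)) : lab g (act h w) c = ext0 h (lab g w c) := by
  have h1 : ∑ i, act h w i c = ∑ i, w i c := by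
    unfold act
    exact Equiv.sum_comp h.symm (fun i => w i c)
  unfold lab
  rw [h1, hg]
  split_ifs
  · rw [ext0_zero]
  · rw [ext0_succ]

lemma S_act (g : V n d → Fin d → Fin n) (h : Equiv.Perm (Fin n)) (y : ℕ → V n d)
    (hg : ∀ k c, g (act h (y k)) c = h (g (y k) c)) :
    S (lab g) (fun k => act h (y k)) = ((Equiv.Perm.sign h : ℤˣ) : ℤ) ^ d * S (lab g) y := by
  unfold S
  have : ∀ c : Fin d, sg (fun j : Fin (n + 1) => lab g (act h (y (n * (c : ℕ) + (j : ℕ)))) c) =
      ((Equiv.Perm.sign h : ℤˣ) : ℤ) *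
        sg (fun j : Fin (n + 1) => lab g (y (n * (c : ℕ) + (j : ℕ))) c) := by
    intro c
    rw [← sg_ext0]
    congr 1
    funext j
    exact lab_act g h _ c (hg _ c)
  simp only [this]
  rw [Finset.prod_mul_distrib]
  simp

lemma f_act (g : V n d → Fin d → Fin n) (h : Equiv.Perm (Fin n)) (v : V n d)
    (π : Equiv.Perm (Fin d × Fin n))
    (hg : ∀ k c, g (act h (path v π k)) c = h (g (path v π k) c)) :
    sgn (actP h π) * S (lab g) (path (act h v) (actP h π)) = sgn π * S (lab g) (path v π) := by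
  have h1 : path (act h v) (actP h π) = fun k => act h (path v π k) := by
    funext k
    exact path_act h v π k
  rw [h1, S_act g h _ hg, sgn_actP]
  have h2 : ((Equiv.Perm.sign h : ℤˣ) : ℤ) ^ d * ((Equiv.Perm.sign h : ℤˣ) : ℤ) ^ d = 1 := by
    rw [← mul_pow, ← Units.val_mul, Int.units_mul_self]
    simp
  calc _ = (((Equiv.Perm.sign h : ℤˣ) : ℤ) ^ d * ((Equiv.Perm.sign h : ℤˣ) : ℤ) ^ d) *
        (sgn π * S (lab g) (path v π)) := by ring
    _ = _ := by rw [h2, one_mul]

/-- the shuffle that maps `B` to `B'` -/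
lemma exists_shuf (B B' : Finset (Fin n)) (hc : B.card = B'.card) :
    ∃ h : Equiv.Perm (Fin n), Shuf h B ∧ Shuf h.symm B' ∧ ∀ i, h i ∈ B' ↔ i ∈ B := by
  classical
  have hcc : Bᶜ.card = B'ᶜ.card := by
    rw [Finset.card_compl, Finset.card_compl, hc]
  set e1 := finSumEquivOfFinset (s := B) (m := B.card) (n := Bᶜ.card) rfl rfl with he1
  set e2 := finSumEquivOfFinset (s := B') (m := B.card) (n := Bᶜ.card) hc.symm hcc.symm with he2
  have hB : ∀ i ∈ B, ∃ a, e1 (Sum.inl a) = i := by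
    intro i hi
    have : i ∈ Set.range (B.orderEmbOfFin rfl) := by
      rw [Finset.range_orderEmbOfFin]; exact hi
    obtain ⟨a, ha⟩ := this
    exact ⟨a, by rw [he1, finSumEquivOfFinset_inl]; exact ha⟩
  have hB' : ∀ i ∈ B', ∃ a, e2 (Sum.inl a) = i := by
    intro i hi
    have : i ∈ Set.range (B'.orderEmbOfFin hc.symm) := by
      rw [Finset.range_orderEmbOfFin]; exact hi
    obtain ⟨a, ha⟩ := this
    exact ⟨a, by rw [he2, finSumEquivOfFinset_inl]; exact ha⟩
  have hBc : ∀ i ∉ B, ∃ a, e1 (Sum.inr a) = i := by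
    intro i hi
    have : i ∈ Set.range (Bᶜ.orderEmbOfFin rfl) := by
      rw [Finset.range_orderEmbOfFin]; simpa using hi
    obtain ⟨a, ha⟩ := this
    exact ⟨a, by rw [he1, finSumEquivOfFinset_inr]; exact ha⟩
  have hBc' : ∀ i ∉ B', ∃ a, e2 (Sum.inr a) = i := by
    intro i hi
    have : i ∈ Set.range (B'ᶜ.orderEmbOfFin hcc.symm) := by
      rw [Finset.range_orderEmbOfFin]; simpa using hi
    obtain ⟨a, ha⟩ := this
    exact ⟨a, by rw [he2, finSumEquivOfFinset_inr]; exact ha⟩
  have l1 : ∀ a b, e1 (Sum.inl a) < e1 (Sum.inl b) ↔ a < b := by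
    intro a b; rw [he1, finSumEquivOfFinset_inl, finSumEquivOfFinset_inl]; simp
  have l2 : ∀ a b, e2 (Sum.inl a) < e2 (Sum.inl b) ↔ a < b := by
    intro a b; rw [he2, finSumEquivOfFinset_inl, finSumEquivOfFinset_inl]; simp
  have r1 : ∀ a b, e1 (Sum.inr a) < e1 (Sum.inr b) ↔ a < b := by
    intro a b; rw [he1, finSumEquivOfFinset_inr, finSumEquivOfFinset_inr]; simp
  have r2 : ∀ a b, e2 (Sum.inr a) < e2 (Sum.inr b) ↔ a < b := by
    intro a b; rw [he2, finSumEquivOfFinset_inr, finSumEquivOfFinset_inr]; simp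
  have m1 : ∀ a, e2 (Sum.inl a) ∈ B' := by
    intro a; rw [he2, finSumEquivOfFinset_inl]; exact Finset.orderEmbOfFin_mem _ _ _
  have m2 : ∀ a, e2 (Sum.inr a) ∉ B' := by
    intro a; rw [he2, finSumEquivOfFinset_inr]
    exact Finset.mem_compl.1 (Finset.orderEmbOfFin_mem B'ᶜ hcc.symm a)
  refine ⟨e1.symm.trans e2, ⟨?_, ?_⟩, ⟨?_, ?_⟩, ?_⟩
  · intro i hi j hj hij
    obtain ⟨a, rfl⟩ := hB i hi
    obtain ⟨b, rfl⟩ := hB j hj
    simp only [Equiv.trans_apply, Equiv.symm_apply_apply]
    rw [l2]; rwa [l1] at hij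
  · intro i hi j hj hij
    obtain ⟨a, rfl⟩ := hBc i hi
    obtain ⟨b, rfl⟩ := hBc j hj
    simp only [Equiv.trans_apply, Equiv.symm_apply_apply]
    rw [r2]; rwa [r1] at hij
  · intro i hi j hj hij
    obtain ⟨a, rfl⟩ := hB' i hi
    obtain ⟨b, rfl⟩ := hB' j hj
    simp only [Equiv.symm_trans_apply, Equiv.symm_symm, Equiv.symm_apply_apply]
    rw [l1]; rwa [l2] at hij
  · intro i hi j hj hij
    obtain ⟨a, rfl⟩ := hBc' i hi
    obtain ⟨b, rfl⟩ := hBc' j hj
    simp only [Equiv.symm_trans_apply, Equiv.symm_symm, Equiv.symm_apply_apply]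
    rw [r1]; rwa [r2] at hij
  · intro i
    constructor
    · intro h
      by_contra hi
      obtain ⟨a, rfl⟩ := hBc i hi
      simp only [Equiv.trans_apply, Equiv.symm_apply_apply] at h
      exact m2 a h
    · intro h
      obtain ⟨a, rfl⟩ := hB i h
      simp only [Equiv.trans_apply, Equiv.symm_apply_apply]
      exact m1 a

lemma gap_act (G : ℤ) (h : Equiv.Perm (Fin n)) (v : V n d) (c : Fin d) (t : ℤ) :
    Gap G (act h v) c t ↔ Gap G v c t := by
  unfold Gap act
  constructor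
  · rintro ⟨⟨i, hi⟩, ⟨j, hj⟩, h3⟩
    refine ⟨⟨_, hi⟩, ⟨_, hj⟩, fun i hi => ?_⟩
    have := h3 (h i)
    simp only [Equiv.symm_apply_apply] at this
    exact this hi
  · rintro ⟨⟨i, hi⟩, ⟨j, hj⟩, h3⟩
    exact ⟨⟨h i, by simpa using hi⟩, ⟨h j, by simpa using hj⟩, fun i hi => h3 _ hi⟩

/-- permutation invariant choice of a coordinate and a threshold -/
noncomputable def thr [NeZero d] (G : ℤ) (v : V n d) : Fin d × ℤ :=
  haveI : Nonempty (Fin d × ℤ) := ⟨(0, 0)⟩
  Classical.epsilon (fun ct : Fin d × ℤ => Gap G v ct.1 ct.2)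

lemma thr_act [NeZero d] (G : ℤ) (h : Equiv.Perm (Fin n)) (v : V n d) :
    thr G (act h v) = thr G v := by
  unfold thr
  congr 1
  funext ct
  rw [gap_act]

lemma thr_spec [NeZero d] (G : ℤ) (v : V n d) (hv : ∃ c t, Gap G v c t) :
    Gap G v (thr G v).1 (thr G v).2 := by
  unfold thr
  obtain ⟨c, t, h⟩ := hv
  exact Classical.epsilon_spec (p := fun ct : Fin d × ℤ => Gap G v ct.1 ct.2) ⟨(c, t), h⟩

/-- the lower part of a vertex -/
noncomputable def low [NeZero d] (G : ℤ) (v : V n d) : Finset (Fin n) :=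
  Finset.univ.filter (fun i => v i (thr G v).1 < (thr G v).2)

lemma mem_low [NeZero d] (G : ℤ) (v : V n d) (i : Fin n) :
    i ∈ low G v ↔ v i (thr G v).1 < (thr G v).2 := by
  simp [low]

lemma mem_low_act [NeZero d] (G : ℤ) (h : Equiv.Perm (Fin n)) (v : V n d) (i : Fin n) :
    i ∈ low G (act h v) ↔ h.symm i ∈ low G v := by
  rw [mem_low, mem_low, thr_act]
  rfl

lemma sep_path [NeZero d] (K : ℤ) (v : V n d) (π : Equiv.Perm (Fin d × Fin n)) (k : ℕ)
    (hv : ∃ c t, Gap (K + 1) v c t) : Sep K (path v π k) (thr (K + 1) v).1 (low (K + 1) v) := by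
  intro i hi l hl
  have h1 := thr_spec (K + 1) v hv
  rw [mem_low] at hi hl
  have h2 := h1.2.2 i hi
  push Not at hl
  unfold path
  split_ifs <;> linarith

theorem EF5 (p k n d : ℕ) (hp : p.Prime) (hn : n = p ^ k) (K : ℤ)
    (g : V n d → Fin d → Fin n) (hg : Compat K g)
    (X : Finset (V n d × Equiv.Perm (Fin d × Fin n)))
    (hinv : ∀ (h : Equiv.Perm (Fin n)) (v : V n d) (π : Equiv.Perm (Fin d × Fin n)),
      (v, π) ∈ X → (act h v, actP h π) ∈ X)
    (hgap : ∀ (v : V n d) (π : Equiv.Perm (Fin d × Fin n)), (v, π) ∈ X →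
      ∃ c t, Gap (K + 1) v c t) :
    (p : ℤ) ∣ ∑ x ∈ X, sgn x.2 * S (lab g) (path x.1 x.2) := by
  classical
  rcases Nat.eq_zero_or_pos d with hd | hd
  · subst hd
    have hX : X = ∅ := by
      apply Finset.eq_empty_of_forall_notMem
      rintro ⟨v, π⟩ hx
      obtain ⟨c, -⟩ := hgap v π hx
      exact c.elim0
    rw [hX]; simp
  have : NeZero d := ⟨hd.ne'⟩
  set f : V n d × Equiv.Perm (Fin d × Fin n) → ℤ :=
    fun x => sgn x.2 * S (lab g) (path x.1 x.2) with hf
  -- the contribution of the simplices with lower part `B`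
  set c : Finset (Fin n) → ℤ :=
    fun B => ∑ x ∈ X.filter (fun x => low (K + 1) x.1 = B), f x with hc
  have hsum : ∑ x ∈ X, f x = ∑ B : Finset (Fin n), c B := by
    rw [hc]
    exact (Finset.sum_fiberwise X (fun x => low (K + 1) x.1) f).symm
  have key : ∀ B B' : Finset (Fin n), B.card = B'.card → c B = c B' := by
    intro B B' hBB
    obtain ⟨h, h1, h2, h3⟩ := exists_shuf B B' hBB
    have hlow : ∀ v : V n d, low (K + 1) v = B → low (K + 1) (act h v) = B' := by
      intro v hv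
      ext i
      rw [mem_low_act, hv, ← h3]
      simp
    have hlow' : ∀ v : V n d, low (K + 1) v = B' → low (K + 1) (act h.symm v) = B := by
      intro v hv
      ext i
      rw [mem_low_act, hv]
      simp only [Equiv.symm_symm]
      exact h3 i
    rw [hc]
    refine Finset.sum_bij' (fun x _ => (act h x.1, actP h x.2))
      (fun x _ => (act h.symm x.1, actP h.symm x.2)) ?_ ?_ ?_ ?_ ?_
    · rintro ⟨v, π⟩ hx
      rw [Finset.mem_filter] at hx ⊢
      exact ⟨hinv h v π hx.1, hlow v hx.2⟩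
    · rintro ⟨v, π⟩ hx
      rw [Finset.mem_filter] at hx ⊢
      exact ⟨hinv h.symm v π hx.1, hlow' v hx.2⟩
    · rintro ⟨v, π⟩ hx
      refine Prod.ext ?_ ?_
      · funext i; simp [act]
      · ext x <;> simp [actP]
    · rintro ⟨v, π⟩ hx
      refine Prod.ext ?_ ?_
      · funext i; simp [act]
      · ext x <;> simp [actP]
    · rintro ⟨v, π⟩ hx
      rw [Finset.mem_filter] at hx
      rw [hf]
      refine (f_act g h v π ?_).symm
      intro k' c'
      have hs := sep_path K v π k' (hgap v π hx.1)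
      rw [hx.2] at hs
      exact hg _ _ B h hs h1 c'
  have hempty : ∀ B : Finset (Fin n), (B = ∅ ∨ B = Finset.univ) → c B = 0 := by
    intro B hB
    rw [hc]
    have : X.filter (fun x => low (K + 1) x.1 = B) = ∅ := by
      apply Finset.eq_empty_of_forall_notMem
      rintro ⟨v, π⟩ hx
      rw [Finset.mem_filter] at hx
      have hs := thr_spec (K + 1) v (hgap v π hx.1)
      obtain ⟨⟨i, hi⟩, ⟨j, hj⟩, -⟩ := hs
      have hi' : i ∈ low (K + 1) v := (mem_low _ _ _).2 hi
      have hj' : j ∉ low (K + 1) v := fun hj' => by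
        rw [mem_low] at hj'; linarith
      rcases hB with hB | hB
      · rw [hx.2, hB] at hi'; simp at hi'
      · rw [hx.2, hB] at hj'; simp at hj'
    simp only [this, Finset.sum_empty]
  set F : ℕ → ℤ := fun j => c (Finset.univ.filter (fun i : Fin n => (i : ℕ) < j)) with hF
  have hcard : ∀ j ≤ n, (Finset.univ.filter (fun i : Fin n => (i : ℕ) < j)).card = j := by
    intro j hj
    rw [Fin.card_filter_val_lt]
    omega
  have hcF : ∀ B : Finset (Fin n), c B = F B.card := by
    intro B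
    rw [hF]
    apply key
    rw [hcard]
    exact (Finset.card_le_univ B).trans (by simp)
  rw [hsum]
  have h5 : ∑ B : Finset (Fin n), c B = ∑ m ∈ range (n + 1), n.choose m • F m := by
    have := Finset.sum_powerset_apply_card (α := ℤ) F (x := (Finset.univ : Finset (Fin n)))
    rw [Finset.powerset_univ, Finset.card_univ, Fintype.card_fin] at this
    rw [← this]
    exact Finset.sum_congr rfl (fun B _ => hcF B)
  rw [h5]
  apply Finset.dvd_sum
  intro m hm
  rw [Finset.mem_range] at hm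
  rcases Nat.eq_zero_or_pos m with h0 | h0
  · subst h0
    have : F 0 = 0 := by
      rw [hF]; apply hempty; left; simp
    rw [this]; simp
  rcases Nat.lt_or_ge m n with h1 | h1
  · rw [nsmul_eq_mul]
    apply Dvd.dvd.mul_right
    rw [Int.natCast_dvd_natCast, hn]
    exact Nat.Prime.dvd_choose_pow hp h0.ne' (by rw [← hn]; exact h1.ne)
  · have hmn : m = n := by omega
    subst hmn
    have : F m = 0 := by
      rw [hF]; apply hempty; right
      ext i; simp
    rw [this]; simp

end Pool.Agent.H63.EF
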